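import Mathlib

/-!
Coordinate form of the sectional curvature and its invariance under changes of coordinates.

`g : E → E →L[ℝ] E →L[ℝ] ℝ` is a metric on (an open subset of) the normed space `E`, `g y u v` its value at `y`.
-/

set_option maxSynthPendingDepth 3

namespace PosSec

open scoped Topology
open Filter

variable {E : Type*} [NormedAddCommGroup E] [NormedSpace ℝ E]
variable {F : Type*} [NormedAddCommGroup F] [NormedSpace ℝ F]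

/-- `∂_u (g(v,w))` at `y` -/
noncomputable def d1 (g : E → E →L[ℝ] E →L[ℝ] ℝ) (y u v w : E) : ℝ := fderiv ℝ (fun y' => g y' v w) y u

/-- `∂_a ∂_b (g(v,w))` at `y` -/
noncomputable def d2 (g : E → E →L[ℝ] E →L[ℝ] ℝ) (y a b v w : E) : ℝ :=
  fderiv ℝ (fun y' => fderiv ℝ (fun y'' => g y'' v w) y' b) y a

/-- `G = Γ(u,v)` at `y`: `g(G,w) = (∂_u g(v,w) + ∂_v g(u,w) - ∂_w g(u,v))/2` for all `w` -/
def IsChr (g : E → E →L[ℝ] E →L[ℝ] ℝ) (y u v G : E) : Prop :=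
  ∀ w, g y G w = (d1 g y u v w + d1 g y v u w - d1 g y w u v) / 2

/-- `R(u,v,v,u)` at `y`, `G11 = Γ(u,u)`, `G12 = Γ(u,v)`, `G22 = Γ(v,v)` -/
noncomputable def curv (g : E → E →L[ℝ] E →L[ℝ] ℝ) (y u v G11 G12 G22 : E) : ℝ :=
  -(d2 g y u u v v + d2 g y v v u u - 2 * d2 g y u v u v) / 2 + g y G12 G12 - g y G11 G22

/-- positive sectional curvature at `y` -/
def PosAt (g : E → E →L[ℝ] E →L[ℝ] ℝ) (y : E) : Prop :=
  ∀ u v : E, LinearIndependent ℝ ![u, v] → ∃ G11 G12 G22 : E,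
    IsChr g y u u G11 ∧ IsChr g y u v G12 ∧ IsChr g y v v G22 ∧ 0 < curv g y u v G11 G12 G22

theorem d1_eq {g : E → E →L[ℝ] E →L[ℝ] ℝ} {y : E} (hg : DifferentiableAt ℝ g y) (u v w : E) :
    d1 g y u v w = fderiv ℝ g y u v w := by
  unfold d1
  have h1 : HasFDerivAt (fun y' => g y' v w)
      (((g y v).comp (0 : E →L[ℝ] E)) + (((g y).comp (0 : E →L[ℝ] E)) +
        (fderiv ℝ g y).flip v).flip w) y :=
    (hg.hasFDerivAt.clm_apply (hasFDerivAt_const v y)).clm_apply (hasFDerivAt_const w y)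
  rw [h1.fderiv]
  simp

theorem d2_eq {g : E → E →L[ℝ] E →L[ℝ] ℝ} {y : E} (hg : ContDiffAt ℝ 2 g y) (a b v w : E) :
    d2 g y a b v w = fderiv ℝ (fderiv ℝ g) y a b v w := by
  unfold d2
  have hev : ∀ᶠ y' in 𝓝 y, DifferentiableAt ℝ g y' :=
    (hg.eventually (by simp)).mono (fun y' h => h.differentiableAt (by norm_num))
  have h0 : (fun y' => fderiv ℝ (fun y'' => g y'' v w) y' b) =ᶠ[𝓝 y]
      fun y' => fderiv ℝ g y' b v w := by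
    filter_upwards [hev] with y' h
    exact d1_eq h b v w
  rw [h0.fderiv_eq]
  have hd : DifferentiableAt ℝ (fderiv ℝ g) y :=
    (hg.fderiv_right (m := 1) (by norm_num)).differentiableAt (by norm_num)
  have h1 : HasFDerivAt (fun y' => fderiv ℝ g y' b v w) _ y :=
    (((hd.hasFDerivAt.clm_apply (hasFDerivAt_const b y)).clm_apply
      (hasFDerivAt_const v y)).clm_apply (hasFDerivAt_const w y))
  rw [h1.fderiv]
  simp

/-- first derivative of a pulled back metric -/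
theorem fderiv_pull1 {g : E → E →L[ℝ] E →L[ℝ] ℝ} {ψ : F → E} {z : F} (hg : DifferentiableAt ℝ g (ψ z))
    (hψ : DifferentiableAt ℝ ψ z) (hψ' : DifferentiableAt ℝ (fderiv ℝ ψ) z) (b v w : F) :
    fderiv ℝ (fun z' => g (ψ z') (fderiv ℝ ψ z' v) (fderiv ℝ ψ z' w)) z b =
      fderiv ℝ g (ψ z) (fderiv ℝ ψ z b) (fderiv ℝ ψ z v) (fderiv ℝ ψ z w) +
      g (ψ z) (fderiv ℝ (fderiv ℝ ψ) z b v) (fderiv ℝ ψ z w) +
      g (ψ z) (fderiv ℝ ψ z v) (fderiv ℝ (fderiv ℝ ψ) z b w) := by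
  have hγ : HasFDerivAt (fun z' => g (ψ z')) ((fderiv ℝ g (ψ z)).comp (fderiv ℝ ψ z)) z :=
    hg.hasFDerivAt.comp z hψ.hasFDerivAt
  have hp : ∀ a : F, HasFDerivAt (fun z' => fderiv ℝ ψ z' a)
      ((fderiv ℝ ψ z).comp (0 : F →L[ℝ] F) + (fderiv ℝ (fderiv ℝ ψ) z).flip a) z :=
    fun a => hψ'.hasFDerivAt.clm_apply (hasFDerivAt_const a z)
  have h1 := (hγ.clm_apply (hp v)).clm_apply (hp w)
  rw [h1.fderiv]
  simp
  ring

/-- second derivative of a pulled back metric -/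
theorem fderiv_pull2 {g : E → E →L[ℝ] E →L[ℝ] ℝ} {ψ : F → E} {z : F} (hg : ContDiffAt ℝ 2 g (ψ z))
    (hψ : ContDiffAt ℝ 3 ψ z) (a b v w : F) :
    fderiv ℝ (fun z' => fderiv ℝ (fun z'' => g (ψ z'') (fderiv ℝ ψ z'' v) (fderiv ℝ ψ z'' w))
      z' b) z a =
      fderiv ℝ (fderiv ℝ g) (ψ z) (fderiv ℝ ψ z a) (fderiv ℝ ψ z b) (fderiv ℝ ψ z v)
        (fderiv ℝ ψ z w) +
      fderiv ℝ g (ψ z) (fderiv ℝ (fderiv ℝ ψ) z a b) (fderiv ℝ ψ z v) (fderiv ℝ ψ z w) +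
      fderiv ℝ g (ψ z) (fderiv ℝ ψ z b) (fderiv ℝ (fderiv ℝ ψ) z a v) (fderiv ℝ ψ z w) +
      fderiv ℝ g (ψ z) (fderiv ℝ ψ z b) (fderiv ℝ ψ z v) (fderiv ℝ (fderiv ℝ ψ) z a w) +
      fderiv ℝ g (ψ z) (fderiv ℝ ψ z a) (fderiv ℝ (fderiv ℝ ψ) z b v) (fderiv ℝ ψ z w) +
      g (ψ z) (fderiv ℝ (fderiv ℝ (fderiv ℝ ψ)) z a b v) (fderiv ℝ ψ z w) +
      g (ψ z) (fderiv ℝ (fderiv ℝ ψ) z b v) (fderiv ℝ (fderiv ℝ ψ) z a w) +
      fderiv ℝ g (ψ z) (fderiv ℝ ψ z a) (fderiv ℝ ψ z v) (fderiv ℝ (fderiv ℝ ψ) z b w) +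
      g (ψ z) (fderiv ℝ (fderiv ℝ ψ) z a v) (fderiv ℝ (fderiv ℝ ψ) z b w) +
      g (ψ z) (fderiv ℝ ψ z v) (fderiv ℝ (fderiv ℝ (fderiv ℝ ψ)) z a b w) := by
  have hg1 : ContDiffAt ℝ 1 (fderiv ℝ g) (ψ z) := hg.fderiv_right (by norm_num)
  have hψ1 : ContDiffAt ℝ 2 (fderiv ℝ ψ) z := hψ.fderiv_right (by norm_num)
  have hψ2 : ContDiffAt ℝ 1 (fderiv ℝ (fderiv ℝ ψ)) z := hψ1.fderiv_right (by norm_num)
  have hcont : ContinuousAt ψ z := hψ.continuousAt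
  have ev1 : ∀ᶠ z' in 𝓝 z, DifferentiableAt ℝ g (ψ z') := by
    have h := (hg.eventually (by simp)).mono
      (fun y' (h : ContDiffAt ℝ 2 g y') => h.differentiableAt (by norm_num))
    exact hcont.eventually h
  have ev2 : ∀ᶠ z' in 𝓝 z, DifferentiableAt ℝ ψ z' :=
    (hψ.eventually (by simp)).mono
      (fun z' (h : ContDiffAt ℝ 3 ψ z') => h.differentiableAt (by norm_num))
  have ev3 : ∀ᶠ z' in 𝓝 z, DifferentiableAt ℝ (fderiv ℝ ψ) z' :=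
    (hψ1.eventually (by simp)).mono
      (fun z' (h : ContDiffAt ℝ 2 (fderiv ℝ ψ) z') => h.differentiableAt (by norm_num))
  have h0 : (fun z' => fderiv ℝ (fun z'' => g (ψ z'') (fderiv ℝ ψ z'' v) (fderiv ℝ ψ z'' w))
      z' b) =ᶠ[𝓝 z] fun z' =>
      fderiv ℝ g (ψ z') (fderiv ℝ ψ z' b) (fderiv ℝ ψ z' v) (fderiv ℝ ψ z' w) +
      g (ψ z') (fderiv ℝ (fderiv ℝ ψ) z' b v) (fderiv ℝ ψ z' w) +
      g (ψ z') (fderiv ℝ ψ z' v) (fderiv ℝ (fderiv ℝ ψ) z' b w) := by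
    filter_upwards [ev1, ev2, ev3] with z' h1 h2 h3
    exact fderiv_pull1 h1 h2 h3 b v w
  rw [h0.fderiv_eq]
  have dψ : DifferentiableAt ℝ ψ z := hψ.differentiableAt (by norm_num)
  have hγ : HasFDerivAt (fun z' => g (ψ z')) ((fderiv ℝ g (ψ z)).comp (fderiv ℝ ψ z)) z :=
    (hg.differentiableAt (by norm_num)).hasFDerivAt.comp z dψ.hasFDerivAt
  have hγ1 : HasFDerivAt (fun z' => fderiv ℝ g (ψ z'))
      ((fderiv ℝ (fderiv ℝ g) (ψ z)).comp (fderiv ℝ ψ z)) z :=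
    (hg1.differentiableAt (by norm_num)).hasFDerivAt.comp z dψ.hasFDerivAt
  have hp : ∀ a : F, HasFDerivAt (fun z' => fderiv ℝ ψ z' a)
      ((fderiv ℝ ψ z).comp (0 : F →L[ℝ] F) + (fderiv ℝ (fderiv ℝ ψ) z).flip a) z :=
    fun a => (hψ1.differentiableAt (by norm_num)).hasFDerivAt.clm_apply (hasFDerivAt_const a z)
  have hp2 : ∀ a c : F, HasFDerivAt (fun z' => fderiv ℝ (fderiv ℝ ψ) z' a c) _ z :=
    fun a c => ((hψ2.differentiableAt (by norm_num)).hasFDerivAt.clm_apply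
      (hasFDerivAt_const a z)).clm_apply (hasFDerivAt_const c z)
  have t1 := ((hγ1.clm_apply (hp b)).clm_apply (hp v)).clm_apply (hp w)
  have t2 := (hγ.clm_apply (hp2 b v)).clm_apply (hp w)
  have t3 := (hγ.clm_apply (hp v)).clm_apply (hp2 b w)
  rw [((t1.fun_add t2).fun_add t3).fderiv]
  simp
  ring

/-- symmetry of the second derivative of `ψ` -/
theorem symm2 {ψ : F → E} {z : F} (hψ : ContDiffAt ℝ 2 ψ z) (a b : F) :
    fderiv ℝ (fderiv ℝ ψ) z a b = fderiv ℝ (fderiv ℝ ψ) z b a :=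
  (hψ.isSymmSndFDerivAt (by simp)).eq a b

/-- symmetry of the third derivative in the last two arguments -/
theorem symm3 {ψ : F → E} {z : F} (hψ : ContDiffAt ℝ 3 ψ z) (a b c : F) :
    fderiv ℝ (fderiv ℝ (fderiv ℝ ψ)) z a b c = fderiv ℝ (fderiv ℝ (fderiv ℝ ψ)) z a c b := by
  have hψ1 : ContDiffAt ℝ 2 (fderiv ℝ ψ) z := hψ.fderiv_right (by norm_num)
  have hψ2 : ContDiffAt ℝ 1 (fderiv ℝ (fderiv ℝ ψ)) z := hψ1.fderiv_right (by norm_num)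
  have hd := (hψ2.differentiableAt (by norm_num)).hasFDerivAt
  have h1 : HasFDerivAt (fun z' => fderiv ℝ (fderiv ℝ ψ) z' b c) _ z :=
    (hd.clm_apply (hasFDerivAt_const b z)).clm_apply (hasFDerivAt_const c z)
  have h2 : HasFDerivAt (fun z' => fderiv ℝ (fderiv ℝ ψ) z' c b) _ z :=
    (hd.clm_apply (hasFDerivAt_const c z)).clm_apply (hasFDerivAt_const b z)
  have ev : (fun z' => fderiv ℝ (fderiv ℝ ψ) z' b c) =ᶠ[𝓝 z]
      fun z' => fderiv ℝ (fderiv ℝ ψ) z' c b := by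
    have h : ∀ᶠ z' in 𝓝 z, ContDiffAt ℝ 3 ψ z' := hψ.eventually (by simp)
    filter_upwards [h] with z' h'
    exact symm2 (h'.of_le (by norm_num)) b c
  have h3 := ev.fderiv_eq (𝕜 := ℝ)
  rw [h1.fderiv, h2.fderiv] at h3
  have h4 := congrArg (fun L : F →L[ℝ] E => L a) h3
  simpa using h4

/-- the first two arguments of the third derivative can be exchanged -/
theorem symm3' {ψ : F → E} {z : F} (hψ : ContDiffAt ℝ 3 ψ z) (a b c : F) :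
    fderiv ℝ (fderiv ℝ (fderiv ℝ ψ)) z a b c = fderiv ℝ (fderiv ℝ (fderiv ℝ ψ)) z b a c := by
  have hψ1 : ContDiffAt ℝ 2 (fderiv ℝ ψ) z := hψ.fderiv_right (by norm_num)
  rw [symm2 hψ1 a b]

section pull

variable {g : E → E →L[ℝ] E →L[ℝ] ℝ} {g' : F → F →L[ℝ] F →L[ℝ] ℝ} {ψ : F → E} {z : F}

theorem d1_pull (hg : ContDiffAt ℝ 2 g (ψ z)) (hψ : ContDiffAt ℝ 3 ψ z)
    (hpull : ∀ᶠ z' in 𝓝 z, ∀ u v, g' z' u v = g (ψ z') (fderiv ℝ ψ z' u) (fderiv ℝ ψ z' v))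
    (b v w : F) :
    d1 g' z b v w = d1 g (ψ z) (fderiv ℝ ψ z b) (fderiv ℝ ψ z v) (fderiv ℝ ψ z w) +
      g (ψ z) (fderiv ℝ (fderiv ℝ ψ) z b v) (fderiv ℝ ψ z w) +
      g (ψ z) (fderiv ℝ ψ z v) (fderiv ℝ (fderiv ℝ ψ) z b w) := by
  have h0 : (fun z' => g' z' v w) =ᶠ[𝓝 z]
      fun z' => g (ψ z') (fderiv ℝ ψ z' v) (fderiv ℝ ψ z' w) := by
    filter_upwards [hpull] with z' h
    exact h v w
  have hg0 : DifferentiableAt ℝ g (ψ z) := hg.differentiableAt (by norm_num)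
  have hψ1 : ContDiffAt ℝ 2 (fderiv ℝ ψ) z := hψ.fderiv_right (by norm_num)
  rw [d1_eq hg0]
  unfold d1
  rw [h0.fderiv_eq]
  exact fderiv_pull1 hg0 (hψ.differentiableAt (by norm_num))
    (hψ1.differentiableAt (by norm_num)) b v w

theorem d2_pull (hg : ContDiffAt ℝ 2 g (ψ z)) (hψ : ContDiffAt ℝ 3 ψ z)
    (hpull : ∀ᶠ z' in 𝓝 z, ∀ u v, g' z' u v = g (ψ z') (fderiv ℝ ψ z' u) (fderiv ℝ ψ z' v))
    (a b v w : F) :
    d2 g' z a b v w =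
      d2 g (ψ z) (fderiv ℝ ψ z a) (fderiv ℝ ψ z b) (fderiv ℝ ψ z v) (fderiv ℝ ψ z w) +
      d1 g (ψ z) (fderiv ℝ (fderiv ℝ ψ) z a b) (fderiv ℝ ψ z v) (fderiv ℝ ψ z w) +
      d1 g (ψ z) (fderiv ℝ ψ z b) (fderiv ℝ (fderiv ℝ ψ) z a v) (fderiv ℝ ψ z w) +
      d1 g (ψ z) (fderiv ℝ ψ z b) (fderiv ℝ ψ z v) (fderiv ℝ (fderiv ℝ ψ) z a w) +
      d1 g (ψ z) (fderiv ℝ ψ z a) (fderiv ℝ (fderiv ℝ ψ) z b v) (fderiv ℝ ψ z w) +
      g (ψ z) (fderiv ℝ (fderiv ℝ (fderiv ℝ ψ)) z a b v) (fderiv ℝ ψ z w) +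
      g (ψ z) (fderiv ℝ (fderiv ℝ ψ) z b v) (fderiv ℝ (fderiv ℝ ψ) z a w) +
      d1 g (ψ z) (fderiv ℝ ψ z a) (fderiv ℝ ψ z v) (fderiv ℝ (fderiv ℝ ψ) z b w) +
      g (ψ z) (fderiv ℝ (fderiv ℝ ψ) z a v) (fderiv ℝ (fderiv ℝ ψ) z b w) +
      g (ψ z) (fderiv ℝ ψ z v) (fderiv ℝ (fderiv ℝ (fderiv ℝ ψ)) z a b w) := by
  have hg0 : DifferentiableAt ℝ g (ψ z) := hg.differentiableAt (by norm_num)
  have h0 : (fun z' => fderiv ℝ (fun z'' => g' z'' v w) z' b) =ᶠ[𝓝 z] fun z' =>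
      fderiv ℝ (fun z'' => g (ψ z'') (fderiv ℝ ψ z'' v) (fderiv ℝ ψ z'' w)) z' b := by
    filter_upwards [hpull.eventually_nhds] with z' h
    have h1 : (fun z'' => g' z'' v w) =ᶠ[𝓝 z']
        fun z'' => g (ψ z'') (fderiv ℝ ψ z'' v) (fderiv ℝ ψ z'' w) := by
      filter_upwards [h] with z'' h'
      exact h' v w
    rw [h1.fderiv_eq]
  rw [d2_eq hg]
  simp only [d1_eq hg0]
  unfold d2
  rw [h0.fderiv_eq]
  exact fderiv_pull2 hg hψ a b v w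

/-- transformation of the Christoffel vectors -/
theorem isChr_pull (hg : ContDiffAt ℝ 2 g (ψ z)) (hψ : ContDiffAt ℝ 3 ψ z)
    (hsym : ∀ u v, g (ψ z) u v = g (ψ z) v u)
    (hpull : ∀ᶠ z' in 𝓝 z, ∀ u v, g' z' u v = g (ψ z') (fderiv ℝ ψ z' u) (fderiv ℝ ψ z' v))
    (hsurj : Function.Surjective (fderiv ℝ ψ z)) {u v G : F} (hG : IsChr g' z u v G) :
    IsChr g (ψ z) (fderiv ℝ ψ z u) (fderiv ℝ ψ z v)
      (fderiv ℝ ψ z G - fderiv ℝ (fderiv ℝ ψ) z u v) := by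
  intro w'
  obtain ⟨w, rfl⟩ := hsurj w'
  have h1 := hG w
  have h2 := hpull.self_of_nhds G w
  rw [h2, d1_pull hg hψ hpull, d1_pull hg hψ hpull, d1_pull hg hψ hpull] at h1
  have hs2 := symm2 (hψ.of_le (by norm_num : (2 : WithTop ℕ∞) ≤ 3))
  rw [map_sub, sub_apply, h1, hs2 v u, hs2 w u, hs2 w v,
    hsym (fderiv ℝ (fderiv ℝ ψ) z u w) (fderiv ℝ ψ z v)]
  ring

theorem d1_symm {y : E} (hsym : ∀ᶠ y' in 𝓝 y, ∀ u v, g y' u v = g y' v u) (a v w : E) :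
    d1 g y a v w = d1 g y a w v := by
  unfold d1
  have h : (fun y' => g y' v w) =ᶠ[𝓝 y] fun y' => g y' w v := by
    filter_upwards [hsym] with y' h'
    exact h' v w
  rw [h.fderiv_eq]

/-- the curvature is a tensor -/
theorem curv_pull (hg : ContDiffAt ℝ 2 g (ψ z)) (hψ : ContDiffAt ℝ 3 ψ z)
    (hsym : ∀ᶠ y in 𝓝 (ψ z), ∀ u v, g y u v = g y v u)
    (hpull : ∀ᶠ z' in 𝓝 z, ∀ u v, g' z' u v = g (ψ z') (fderiv ℝ ψ z' u) (fderiv ℝ ψ z' v))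
    (hsurj : Function.Surjective (fderiv ℝ ψ z)) {u v G11 G12 G22 : F}
    (h11 : IsChr g' z u u G11) (h12 : IsChr g' z u v G12) (h22 : IsChr g' z v v G22) :
    curv g' z u v G11 G12 G22 = curv g (ψ z) (fderiv ℝ ψ z u) (fderiv ℝ ψ z v)
      (fderiv ℝ ψ z G11 - fderiv ℝ (fderiv ℝ ψ) z u u)
      (fderiv ℝ ψ z G12 - fderiv ℝ (fderiv ℝ ψ) z u v)
      (fderiv ℝ ψ z G22 - fderiv ℝ (fderiv ℝ ψ) z v v) := by
  have hs := hsym.self_of_nhds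
  have k11 := isChr_pull hg hψ hs hpull hsurj h11
  have k12 := isChr_pull hg hψ hs hpull hsurj h12
  have k22 := isChr_pull hg hψ hs hpull hsurj h22
  unfold curv
  rw [hpull.self_of_nhds G12 G12, hpull.self_of_nhds G11 G22, d2_pull hg hψ hpull,
    d2_pull hg hψ hpull, d2_pull hg hψ hpull]
  have hs2 := symm2 (hψ.of_le (by norm_num : (2 : WithTop ℕ∞) ≤ 3))
  have hs3 := symm3 hψ
  have hs3' := symm3' hψ
  rw [hs2 v u, hs3 v v u, hs3' v u v, hs3 u v u]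
  obtain ⟨P11, hP11⟩ : ∃ P, P = fderiv ℝ ψ z G11 := ⟨_, rfl⟩
  obtain ⟨P12, hP12⟩ : ∃ P, P = fderiv ℝ ψ z G12 := ⟨_, rfl⟩
  obtain ⟨P22, hP22⟩ : ∃ P, P = fderiv ℝ ψ z G22 := ⟨_, rfl⟩
  rw [← hP11] at k11
  rw [← hP12] at k12
  rw [← hP22] at k22
  rw [← hP11, ← hP12, ← hP22]
  generalize fderiv ℝ ψ z u = U at *
  generalize fderiv ℝ ψ z v = V at *
  generalize fderiv ℝ (fderiv ℝ ψ) z u u = A at *
  generalize fderiv ℝ (fderiv ℝ ψ) z u v = B at *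
  generalize fderiv ℝ (fderiv ℝ ψ) z v v = C at *
  have e1 := k12 B
  have e2 := k22 A
  have e3 := k11 C
  simp only [map_sub, sub_apply] at e1 e2 e3 ⊢
  generalize fderiv ℝ (fderiv ℝ (fderiv ℝ ψ)) z u u v = X at *
  generalize fderiv ℝ (fderiv ℝ (fderiv ℝ ψ)) z u v v = Y at *
  have s1 := d1_symm hsym U B V
  have s2 := d1_symm hsym V B U
  have s3 := d1_symm hsym V A V
  linear_combination 2 * e1 - e2 - e3 - s2 + s3 + hs P22 A - hs C A - hs P12 B +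
    hs X V / 2 - hs Y U / 2

/-- positive sectional curvature is invariant under changes of coordinates -/
theorem posAt_of_pull (hg : ContDiffAt ℝ 2 g (ψ z)) (hψ : ContDiffAt ℝ 3 ψ z)
    (hsym : ∀ᶠ y in 𝓝 (ψ z), ∀ u v, g y u v = g y v u)
    (hpull : ∀ᶠ z' in 𝓝 z, ∀ u v, g' z' u v = g (ψ z') (fderiv ℝ ψ z' u) (fderiv ℝ ψ z' v))
    (hsurj : Function.Surjective (fderiv ℝ ψ z)) (hpos : PosAt g' z) : PosAt g (ψ z) := by
  intro U V hUV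
  obtain ⟨u, rfl⟩ := hsurj U
  obtain ⟨v, rfl⟩ := hsurj V
  have huv : LinearIndependent ℝ ![u, v] := by
    rw [LinearIndependent.pair_iff] at hUV ⊢
    intro s t hst
    apply hUV s t
    rw [← map_smul, ← map_smul, ← map_add, hst, map_zero]
  obtain ⟨G11, G12, G22, h11, h12, h22, hc⟩ := hpos u v huv
  have hs := hsym.self_of_nhds
  refine ⟨_, _, _, isChr_pull hg hψ hs hpull hsurj h11, isChr_pull hg hψ hs hpull hsurj h12,
    isChr_pull hg hψ hs hpull hsurj h22, ?_⟩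
  rw [← curv_pull hg hψ hsym hpull hsurj h11 h12 h22]
  exact hc

end pull

end PosSec
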