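import Pool.Agent.Lib.PosSec.Coord

/-!
O'Neill's inequality in coordinates.

The metric `G` on (an open subset of) `V × W` has the form
`G p X Y = gb p.1 X.1 Y.1 + k p (X.2 + B p X.1) (Y.2 + B p Y.1)`, i.e. the projection to `V` is a Riemannian
submersion onto `gb`.  If `G` has positive sectional curvature at `p`, so does `gb` at `p.1`.
-/

set_option maxSynthPendingDepth 3

namespace PosSec

open scoped Topology
open Filter

variable {V : Type*} [NormedAddCommGroup V] [NormedSpace ℝ V]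
variable {W : Type*} [NormedAddCommGroup W] [NormedSpace ℝ W]
variable {E : Type*} [NormedAddCommGroup E] [NormedSpace ℝ E]

/-- first derivative of `k (β, β')` -/
theorem fderiv_bil {k : E → W →L[ℝ] W →L[ℝ] ℝ} {β β' : E → W} {p : E} (hk : DifferentiableAt ℝ k p)
    (hβ : DifferentiableAt ℝ β p) (hβ' : DifferentiableAt ℝ β' p) (b : E) :
    fderiv ℝ (fun q => k q (β q) (β' q)) p b =
      fderiv ℝ k p b (β p) (β' p) + k p (fderiv ℝ β p b) (β' p) + k p (β p) (fderiv ℝ β' p b) := by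
  have h1 := (hk.hasFDerivAt.clm_apply hβ.hasFDerivAt).clm_apply hβ'.hasFDerivAt
  rw [h1.fderiv]
  simp
  ring

/-- second derivative of `k (β, β')` at a common zero of `β` and `β'` -/
theorem fderiv2_bil {k : E → W →L[ℝ] W →L[ℝ] ℝ} {β β' : E → W} {p : E} (hk : ContDiffAt ℝ 2 k p)
    (hβ : ContDiffAt ℝ 2 β p) (hβ' : ContDiffAt ℝ 2 β' p) (h0 : β p = 0) (h0' : β' p = 0)
    (a b : E) :
    fderiv ℝ (fun r => fderiv ℝ (fun q => k q (β q) (β' q)) r b) p a =
      k p (fderiv ℝ β p b) (fderiv ℝ β' p a) + k p (fderiv ℝ β p a) (fderiv ℝ β' p b) := by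
  have ek : ∀ᶠ r in 𝓝 p, DifferentiableAt ℝ k r :=
    (hk.eventually (by simp)).mono (fun _ h => h.differentiableAt (by norm_num))
  have eβ : ∀ᶠ r in 𝓝 p, DifferentiableAt ℝ β r :=
    (hβ.eventually (by simp)).mono (fun _ h => h.differentiableAt (by norm_num))
  have eβ' : ∀ᶠ r in 𝓝 p, DifferentiableAt ℝ β' r :=
    (hβ'.eventually (by simp)).mono (fun _ h => h.differentiableAt (by norm_num))
  have e : (fun r => fderiv ℝ (fun q => k q (β q) (β' q)) r b) =ᶠ[𝓝 p] fun r =>
      fderiv ℝ k r b (β r) (β' r) + k r (fderiv ℝ β r b) (β' r) +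
        k r (β r) (fderiv ℝ β' r b) := by
    filter_upwards [ek, eβ, eβ'] with r h1 h2 h3
    exact fderiv_bil h1 h2 h3 b
  rw [e.fderiv_eq]
  have dk := (hk.differentiableAt (by norm_num)).hasFDerivAt
  have dβ := (hβ.differentiableAt (by norm_num)).hasFDerivAt
  have dβ' := (hβ'.differentiableAt (by norm_num)).hasFDerivAt
  have dk1 := ((hk.fderiv_right (m := 1) (by norm_num)).differentiableAt
    (by norm_num)).hasFDerivAt
  have dβ1 := ((hβ.fderiv_right (m := 1) (by norm_num)).differentiableAt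
    (by norm_num)).hasFDerivAt
  have dβ1' := ((hβ'.fderiv_right (m := 1) (by norm_num)).differentiableAt
    (by norm_num)).hasFDerivAt
  have t1 := ((dk1.clm_apply (hasFDerivAt_const b p)).clm_apply dβ).clm_apply dβ'
  have t2 := (dk.clm_apply (dβ1.clm_apply (hasFDerivAt_const b p))).clm_apply dβ'
  have t3 := (dk.clm_apply dβ).clm_apply (dβ1'.clm_apply (hasFDerivAt_const b p))
  rw [((t1.fun_add t2).fun_add t3).fderiv]
  simp [h0, h0']

theorem fderiv_fst' {f : V → ℝ} {q : V × W} (hf : DifferentiableAt ℝ f q.1) (b : V × W) :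
    fderiv ℝ (fun r : V × W => f r.1) q b = fderiv ℝ f q.1 b.1 := by
  have h := hf.hasFDerivAt.comp q (hasFDerivAt_fst (𝕜 := ℝ) (E := V) (F := W) (p := q))
  have h2 : HasFDerivAt (fun r : V × W => f r.1)
      ((fderiv ℝ f q.1).comp (ContinuousLinearMap.fst ℝ V W)) q := h
  rw [h2.fderiv]
  simp

section

variable {G : V × W → (V × W) →L[ℝ] (V × W) →L[ℝ] ℝ} {gb : V → V →L[ℝ] V →L[ℝ] ℝ}
variable {k : V × W → W →L[ℝ] W →L[ℝ] ℝ} {B : V × W → V →L[ℝ] W} {p : V × W}

/-- second derivative of the base metric -/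
theorem d2_fst (hgb : ContDiffAt ℝ 2 gb p.1) (a b : V × W) (v w : V) :
    fderiv ℝ (fun r : V × W => fderiv ℝ (fun q : V × W => gb q.1 v w) r b) p a =
      d2 gb p.1 a.1 b.1 v w := by
  have e1 : ∀ᶠ y in 𝓝 p.1, ContDiffAt ℝ 2 gb y := hgb.eventually (by simp)
  have e2 : ∀ᶠ r : V × W in 𝓝 p, ContDiffAt ℝ 2 gb r.1 := continuousAt_fst.eventually e1
  have hvw : ∀ y : V, ContDiffAt ℝ 2 gb y → ContDiffAt ℝ 2 (fun y' => gb y' v w) y := by
    intro y hy
    exact (hy.clm_apply contDiffAt_const).clm_apply contDiffAt_const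
  have e : (fun r : V × W => fderiv ℝ (fun q : V × W => gb q.1 v w) r b) =ᶠ[𝓝 p]
      fun r => fderiv ℝ (fun y => gb y v w) r.1 b.1 := by
    filter_upwards [e2] with r hr
    exact fderiv_fst' (f := fun y => gb y v w) ((hvw _ hr).differentiableAt (by norm_num)) b
  rw [e.fderiv_eq]
  have hd : DifferentiableAt ℝ (fun y => fderiv ℝ (fun y' => gb y' v w) y b.1) p.1 := by
    have h1 : ContDiffAt ℝ 1 (fderiv ℝ (fun y' => gb y' v w)) p.1 :=
      (hvw _ hgb).fderiv_right (by norm_num)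
    exact (h1.differentiableAt (by norm_num)).clm_apply (differentiableAt_const _)
  exact fderiv_fst' (f := fun y => fderiv ℝ (fun y' => gb y' v w) y b.1) hd a

variable (hgb : ContDiffAt ℝ 2 gb p.1) (hk : ContDiffAt ℝ 2 k p) (hB : ContDiffAt ℝ 2 B p)
  (hG : ∀ᶠ q in 𝓝 p, ∀ X Y : V × W,
    G q X Y = gb q.1 X.1 Y.1 + k q (X.2 + B q X.1) (Y.2 + B q Y.1))

include hG hgb hk hB

theorem oneill_d1 (a : V × W) (v w : V) :
    d1 G p a (v, -B p v) (w, -B p w) = d1 gb p.1 a.1 v w := by
  have hβ : ∀ v : V, ContDiffAt ℝ 2 (fun q => -B p v + B q v) p := fun v =>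
    contDiffAt_const.add (hB.clm_apply contDiffAt_const)
  have e : (fun q => G q (v, -B p v) (w, -B p w)) =ᶠ[𝓝 p] fun q =>
      gb q.1 v w + k q (-B p v + B q v) (-B p w + B q w) := by
    filter_upwards [hG] with q hq
    exact hq _ _
  unfold d1
  rw [e.fderiv_eq]
  have hvw : ContDiffAt ℝ 2 (fun y' => gb y' v w) p.1 :=
    (hgb.clm_apply contDiffAt_const).clm_apply contDiffAt_const
  have h1 : DifferentiableAt ℝ (fun q : V × W => gb q.1 v w) p :=
    (hvw.differentiableAt (by norm_num)).comp p differentiableAt_fst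
  have dβ : ∀ v : V, DifferentiableAt ℝ (fun q => -B p v + B q v) p := fun v =>
    (hβ v).differentiableAt (by norm_num)
  have h2 : DifferentiableAt ℝ (fun q => k q (-B p v + B q v) (-B p w + B q w)) p :=
    (((hk.differentiableAt (by norm_num)).clm_apply (dβ v)).clm_apply (dβ w))
  rw [fderiv_fun_add h1 h2, add_apply, fderiv_fst' (f := fun y => gb y v w)
    (hvw.differentiableAt (by norm_num)),
    fderiv_bil (hk.differentiableAt (by norm_num)) (dβ v) (dβ w)]
  simp

omit hgb in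
theorem oneill_d1v (a : V × W) (v : V) (w : W) :
    d1 G p a (v, -B p v) (0, w) = k p (fderiv ℝ B p a v) w := by
  have e : (fun q => G q (v, -B p v) (0, w)) =ᶠ[𝓝 p] fun q =>
      k q (-B p v + B q v) w := by
    filter_upwards [hG] with q hq
    rw [hq]
    simp
  unfold d1
  rw [e.fderiv_eq]
  have hβ : DifferentiableAt ℝ (fun q => -B p v + B q v) p :=
    (differentiableAt_const _).add ((hB.differentiableAt (by norm_num)).clm_apply
      (differentiableAt_const _))
  have := fderiv_bil (β := fun q => -B p v + B q v) (β' := fun _ => w)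
    (hk.differentiableAt (by norm_num)) hβ (differentiableAt_const _) a
  rw [this]
  have h3 : HasFDerivAt (fun q => -B p v + B q v) _ p := (hasFDerivAt_const (-B p v) p).add
    ((hB.differentiableAt (by norm_num)).hasFDerivAt.clm_apply (hasFDerivAt_const v p))
  rw [h3.fderiv]
  simp

theorem oneill_d2 (a b : V × W) (v w : V) :
    d2 G p a b (v, -B p v) (w, -B p w) = d2 gb p.1 a.1 b.1 v w +
      k p (fderiv ℝ B p b v) (fderiv ℝ B p a w) + k p (fderiv ℝ B p a v) (fderiv ℝ B p b w) := by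
  have hβ : ∀ v : V, ContDiffAt ℝ 2 (fun q => -B p v + B q v) p := fun v =>
    contDiffAt_const.add (hB.clm_apply contDiffAt_const)
  have hfβ : ∀ (a : V × W) (v : V), fderiv ℝ (fun q => -B p v + B q v) p a =
      fderiv ℝ B p a v := by
    intro a v
    have h3 : HasFDerivAt (fun q => -B p v + B q v) _ p := (hasFDerivAt_const (-B p v) p).add
      ((hB.differentiableAt (by norm_num)).hasFDerivAt.clm_apply (hasFDerivAt_const v p))
    rw [h3.fderiv]
    simp
  have e0 : ∀ᶠ r in 𝓝 p, (fun q => G q (v, -B p v) (w, -B p w)) =ᶠ[𝓝 r] fun q =>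
      gb q.1 v w + k q (-B p v + B q v) (-B p w + B q w) := by
    filter_upwards [hG.eventually_nhds] with r hr
    filter_upwards [hr] with q hq
    exact hq _ _
  have hvw : ∀ y : V, ContDiffAt ℝ 2 gb y → ContDiffAt ℝ 2 (fun y' => gb y' v w) y := by
    intro y hy
    exact (hy.clm_apply contDiffAt_const).clm_apply contDiffAt_const
  have e1 : ∀ᶠ y in 𝓝 p.1, ContDiffAt ℝ 2 gb y := hgb.eventually (by simp)
  have e2 : ∀ᶠ r : V × W in 𝓝 p, ContDiffAt ℝ 2 gb r.1 := continuousAt_fst.eventually e1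
  have e3 : ∀ᶠ r in 𝓝 p, ContDiffAt ℝ 2 k r := hk.eventually (by simp)
  have e4 : ∀ᶠ r in 𝓝 p, ContDiffAt ℝ 2 B r := hB.eventually (by simp)
  have hβr : ∀ r, ContDiffAt ℝ 2 B r → ∀ v : V, ContDiffAt ℝ 2 (fun q => -B p v + B q v) r :=
    fun r hr v => contDiffAt_const.add (hr.clm_apply contDiffAt_const)
  have hd1 : ∀ r : V × W, ContDiffAt ℝ 2 gb r.1 →
      ContDiffAt ℝ 2 (fun q : V × W => gb q.1 v w) r := fun r hr =>
    (hvw _ hr).comp r contDiffAt_fst
  have hd2 : ∀ r : V × W, ContDiffAt ℝ 2 k r → ContDiffAt ℝ 2 B r →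
      ContDiffAt ℝ 2 (fun q => k q (-B p v + B q v) (-B p w + B q w)) r := fun r h1 h2 =>
    (h1.clm_apply (hβr r h2 v)).clm_apply (hβr r h2 w)
  have e : (fun r => fderiv ℝ (fun q => G q (v, -B p v) (w, -B p w)) r b) =ᶠ[𝓝 p]
      fun r => fderiv ℝ (fun q : V × W => gb q.1 v w) r b +
        fderiv ℝ (fun q => k q (-B p v + B q v) (-B p w + B q w)) r b := by
    filter_upwards [e0, e2, e3, e4] with r h0 h2 h3 h4
    rw [h0.fderiv_eq, fderiv_fun_add ((hd1 r h2).differentiableAt (by norm_num))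
      ((hd2 r h3 h4).differentiableAt (by norm_num)), add_apply]
  unfold d2
  rw [e.fderiv_eq]
  have hs1 : DifferentiableAt ℝ (fun r => fderiv ℝ (fun q : V × W => gb q.1 v w) r b) p :=
    (((hd1 p hgb).fderiv_right (m := 1) (by norm_num)).differentiableAt
      (by norm_num)).clm_apply (differentiableAt_const _)
  have hs2 : DifferentiableAt ℝ (fun r => fderiv ℝ
      (fun q => k q (-B p v + B q v) (-B p w + B q w)) r b) p :=
    (((hd2 p hk hB).fderiv_right (m := 1) (by norm_num)).differentiableAt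
      (by norm_num)).clm_apply (differentiableAt_const _)
  rw [fderiv_fun_add hs1 hs2, add_apply, d2_fst hgb,
    fderiv2_bil hk (hβ v) (hβ w) (by simp) (by simp), hfβ, hfβ, hfβ, hfβ]
  rw [add_assoc]
  rfl

/-- O'Neill: positive sectional curvature passes to the base of a Riemannian submersion -/
theorem posAt_fst (hksym : ∀ w w' : W, k p w w' = k p w' w) (hkpos : ∀ w : W, 0 ≤ k p w w)
    (hpos : PosAt G p) : PosAt gb p.1 := by
  intro u v huv
  have hUV : LinearIndependent ℝ ![((u, -B p u) : V × W), (v, -B p v)] := by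
    rw [LinearIndependent.pair_iff] at huv ⊢
    intro s t hst
    apply huv s t
    have := congrArg Prod.fst hst
    simpa using this
  obtain ⟨G11, G12, G22, h11, h12, h22, hc⟩ := hpos _ _ hUV
  have hGp := hG.self_of_nhds
  have hchr : ∀ (a b : V) (Γ : V × W), IsChr G p (a, -B p a) (b, -B p b) Γ →
      IsChr gb p.1 a b Γ.1 := by
    intro a b Γ h w
    have h1 := h (w, -B p w)
    rw [oneill_d1 hgb hk hB hG, oneill_d1 hgb hk hB hG, oneill_d1 hgb hk hB hG, hGp] at h1
    simpa using h1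
  have hver : ∀ (a b : V) (Γ : V × W), IsChr G p (a, -B p a) (b, -B p b) Γ →
      ∀ w : W, k p (Γ.2 + B p Γ.1) w =
        (k p (fderiv ℝ B p (a, -B p a) b) w + k p (fderiv ℝ B p (b, -B p b) a) w) / 2 := by
    intro a b Γ h w
    have h1 := h (0, w)
    rw [oneill_d1v hk hB hG, oneill_d1v hk hB hG, oneill_d1 hgb hk hB hG, hGp] at h1
    simpa [d1] using h1
  refine ⟨G11.1, G12.1, G22.1, hchr _ _ _ h11, hchr _ _ _ h12, hchr _ _ _ h22, ?_⟩
  unfold curv at hc ⊢
  rw [oneill_d2 hgb hk hB hG, oneill_d2 hgb hk hB hG, oneill_d2 hgb hk hB hG, hGp, hGp] at hc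
  have v11 := hver _ _ _ h11
  have v12 := hver _ _ _ h12
  have v22 := hver _ _ _ h22
  have hq := hkpos (fderiv ℝ B p (u, -B p u) v - fderiv ℝ B p (v, -B p v) u)
  have e12 := v12 (G12.2 + B p G12.1)
  have e12a := v12 (fderiv ℝ B p (u, -B p u) v)
  have e12b := v12 (fderiv ℝ B p (v, -B p v) u)
  have e11 := v11 (G22.2 + B p G22.1)
  have e22 := v22 (fderiv ℝ B p (u, -B p u) u)
  rw [hksym] at e12a e12b
  rw [hksym (G22.2 + B p G22.1)] at e22
  generalize fderiv ℝ B p (u, -B p u) v = x at *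
  generalize fderiv ℝ B p (v, -B p v) u = y at *
  generalize fderiv ℝ B p (u, -B p u) u = s at *
  generalize fderiv ℝ B p (v, -B p v) v = t at *
  generalize G12.2 + B p G12.1 = η at *
  generalize G11.2 + B p G11.1 = η1 at *
  generalize G22.2 + B p G22.1 = η2 at *
  simp only [map_sub, sub_apply] at hq
  have s1 := hksym x y
  have s2 := hksym s t
  simp only [] at hc ⊢
  nlinarith [hc, hq, e12, e12a, e12b, e11, e22, s1, s2]

end

end PosSec
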